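import Mathlib
import Pool.Agent.Y537.SG.Main

set_option autoImplicit false

/-!
# Restrictions of the shift graph: all countable products, and the power set of `ℕ`

`shiftGraph` is the graph on the sets of natural numbers in which two infinite sets are adjacent if
one of them is the other one without its least element; `prodGraph`, `piGraph` are the categorical
products of two graphs and of a family of graphs; `borelChromatic` is the Borel chromatic number,
the least cardinality of a standard Borel space `Z` for which there is a Borel map to `Z` taking
different values at adjacent vertices; `BorelHom G H` says that there is a Borel homomorphism from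
`G` to `H`. All of them are defined in `Pool.Agent.Y537.SG.Main`.

There is a map `B` from the subsets of `ℕ` to the Borel sets of infinite sets of natural numbers,
which preserves unions and intersections, such that for every countable family of sets `A k` the
product of the restrictions of the shift graph to the sets `B (A k)` has Borel chromatic number
`ℵ₀` if the sets `A k` have a common element, and `3` otherwise. So there is a Borel homomorphism
from the restriction to `B A` to the restriction to `B A'` if and only if `A ⊆ A'`, and infinitely
many restrictions `B {n}` of Borel chromatic number `ℵ₀` the product of any two of which has Borel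
chromatic number `3` (the question asks for two restrictions whose product has a smaller Borel
chromatic number than both of them).
-/

namespace Pool.Agent.Results.MP_59646b_lc.CountableProducts

open Set Cardinal Pool.Agent.Y537.SG

open Classical in
/-- **Borel chromatic numbers of countable products of restrictions of the shift graph.** -/
theorem result : ∃ B : Set ℕ → Set (Set ℕ),
    -- the sets `B A` are Borel sets of infinite sets, uniformly in `A`
    MeasurableSet {p : Set ℕ × Set ℕ | p.2 ∈ B p.1} ∧
    (∀ A, MeasurableSet (B A)) ∧
    (∀ A, ∀ x ∈ B A, x.Infinite) ∧
    -- `B` preserves unions and intersections
    (∀ (ι : Type) [Nonempty ι] (A : ι → Set ℕ),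
      B (⋃ k, A k) = ⋃ k, B (A k) ∧ B (⋂ k, A k) = ⋂ k, B (A k)) ∧
    -- one restriction, products of two and of countably many restrictions
    (∀ A, borelChromatic (shiftGraph.induce (B A)) = if A.Nonempty then ℵ₀ else 3) ∧
    (∀ A A', borelChromatic (prodGraph (shiftGraph.induce (B A)) (shiftGraph.induce (B A'))) =
      if (A ∩ A').Nonempty then ℵ₀ else 3) ∧
    (∀ (ι : Type) [Countable ι] [Nonempty ι] (A : ι → Set ℕ),
      borelChromatic (piGraph fun k => shiftGraph.induce (B (A k))) =
        if (⋂ k, A k).Nonempty then ℵ₀ else 3) ∧
    -- homomorphisms
    ∀ A A', BorelHom (shiftGraph.induce (B A)) (shiftGraph.induce (B A')) ↔ A ⊆ A' :=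
  main

end Pool.Agent.Results.MP_59646b_lc.CountableProducts
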